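import Mathlib

namespace Pool.Agent.H.MP_f07634_pr

open Finset

variable {n : ℕ}

def B (d : ZMod n → ℤ) (s : ZMod n) (l : ℕ) : ℤ := ∑ t ∈ range l, d (s - t)

def G (d : ZMod n → ℤ) (q : ZMod n) (v : ℤ) : Prop := ∀ l, 0 < v + B d q l

def Rec (d : ZMod n → ℤ) (s : ZMod n) : Prop := G d (s - 1) (d s)

lemma B_succ (d : ZMod n → ℤ) (s : ZMod n) (l : ℕ) : B d s (l + 1) = B d s l + d (s - l) :=
  sum_range_succ _ _

lemma B_add (d : ZMod n → ℤ) (s : ZMod n) (l k : ℕ) : B d s (l + k) = B d s l + B d (s - l) k := by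
  simp only [B, sum_range_add, Nat.cast_add, sub_sub]

lemma B_succ' (d : ZMod n → ℤ) (s : ZMod n) (l : ℕ) : B d s (l + 1) = d s + B d (s - 1) l := by
  rw [add_comm l, B_add]
  simp [B]

lemma G_iff (d : ZMod n → ℤ) (q : ZMod n) (v : ℤ) : G d q v ↔ 0 < v ∧ G d (q - 1) (v + d q) := by
  constructor
  · intro h
    refine ⟨by simpa [B] using h 0, fun l => ?_⟩
    have := h (l + 1)
    rw [B_succ'] at this
    linarith
  · rintro ⟨h0, h⟩ (_ | l)
    · simpa [B] using h0
    · have := h l
      rw [B_succ']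
      linarith

lemma rec_iff (d : ZMod n → ℤ) (s : ZMod n) : Rec d s ↔ ∀ l, 0 < B d s (l + 1) := by
  simp only [Rec, G, B_succ']

lemma G_pos {d : ZMod n → ℤ} {q : ZMod n} {v : ℤ} (h : G d q v) : 0 < v := ((G_iff _ _ _).1 h).1

lemma rec_mono {d d' : ZMod n → ℤ} (h : ∀ t, d t ≤ d' t) {s : ZMod n} (hs : Rec d s) : Rec d' s := by
  rw [rec_iff] at hs ⊢
  exact fun l => (hs l).trans_le (sum_le_sum fun t _ => h _)

lemma G_loc {d d' : ZMod n → ℤ} {p : ZMod n} (hp : p + 1 ≠ p)
    (hs : d' p + d' (p + 1) = d p + d (p + 1)) (ho : ∀ t, t ≠ p → t ≠ p + 1 → d' t = d t)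
    (hm : d' p ≤ max 0 (max (d p) (d p + d (p + 1)))) {q : ZMod n} (hq : q ≠ p) {v : ℤ}
    (h : G d q v) : G d' q v := by
  have e : ∀ l : ℕ, B d' q l = B d q l - if q - l = p then d' p - d p else 0 := by
    intro l
    induction l with
    | zero => simp [B, hq]
    | succ l ih =>
      rw [B_succ, B_succ, ih]
      have k : q - ((l + 1 : ℕ) : ZMod n) = p ↔ q - l = p + 1 := by
        push_cast
        rw [← sub_sub, sub_eq_iff_eq_add]
      by_cases h1 : q - l = p
      · have : ¬ q - l = p + 1 := fun h2 => hp (h2.symm.trans h1)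
        simp only [k, h1, this, if_true, hp.symm, if_false]
        ring
      · by_cases h2 : q - l = p + 1
        · simp only [k, h2, hp, if_true, if_false]
          linarith
        · simp only [k, h1, h2, if_false, ho _ h1 h2]
          ring
  intro l
  rw [e]
  split_ifs with h1
  · rcases l with _ | l
    · exact absurd (by simpa using h1) hq
    · have k : q - l = p + 1 := by
        push_cast at h1
        rw [← h1]
        ring
      have a := h l
      have b := h (l + 1)
      have c := h (l + 1 + 1)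
      rw [B_succ, h1] at c
      have := B_succ d q l
      rw [k] at this
      omega
  · simpa using h l

lemma G_loc' {d d' : ZMod n → ℤ} {p : ZMod n} (hp : p + 1 ≠ p)
    (hs : d' p + d' (p + 1) = d p + d (p + 1)) (ho : ∀ t, t ≠ p → t ≠ p + 1 → d' t = d t)
    (hm : max 0 (max (d' p) (d p + d (p + 1))) = max 0 (max (d p) (d p + d (p + 1))))
    {q : ZMod n} (hq : q ≠ p) (v : ℤ) : G d' q v ↔ G d q v :=
  ⟨G_loc hp hs.symm (fun t a b => (ho t a b).symm) (by omega) hq, G_loc hp hs ho (by omega) hq⟩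

lemma rec_loc {d d' : ZMod n → ℤ} {p : ZMod n} (hp : p + 1 ≠ p)
    (hs : d' p + d' (p + 1) = d p + d (p + 1)) (ho : ∀ t, t ≠ p → t ≠ p + 1 → d' t = d t)
    (hm : max 0 (max (d' p) (d p + d (p + 1))) = max 0 (max (d p) (d p + d (p + 1)))) :
    (∀ s, s ≠ p → s ≠ p + 1 → (Rec d' s ↔ Rec d s)) ∧
    ∃ R : ℤ → Prop, ((∀ v, R v → 0 < v) ∧ (R 1 → R 2)) ∧ (Rec d p ↔ R (d p)) ∧ (Rec d' p ↔ R (d' p)) ∧
      (Rec d (p + 1) ↔ 0 < d (p + 1) ∧ R (d p + d (p + 1))) ∧
      (Rec d' (p + 1) ↔ 0 < d' (p + 1) ∧ R (d p + d (p + 1))) := by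
  have h1 : p - 1 ≠ p := fun h => hp (by linear_combination -h)
  refine ⟨fun s a b => ?_, G d (p - 1), ⟨fun v => G_pos, fun k l => by have := k l; omega⟩,
    Iff.rfl, G_loc' hp hs ho hm h1 _, ?_, ?_⟩
  · rw [Rec, Rec, ho s a b]
    exact G_loc' hp hs ho hm (fun h => b (by rw [← h]; ring)) _
  · rw [Rec, add_sub_cancel_right, G_iff, add_comm (d (p + 1))]
  · rw [Rec, add_sub_cancel_right, G_iff, add_comm (d' (p + 1)), hs, G_loc' hp hs ho hm h1]

variable [NeZero n]

lemma B_per (d : ZMod n → ℤ) (s : ZMod n) : B d s n = ∑ t, d t := by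
  obtain ⟨N, rfl⟩ := Nat.exists_eq_succ_of_ne_zero (NeZero.ne n)
  rw [← Equiv.sum_comp (Equiv.subLeft s) d, B,
    ← Fin.sum_univ_eq_sum_range (fun t => d (s - (t : ZMod (N + 1))))]
  refine sum_congr rfl fun t _ => ?_
  rw [Equiv.subLeft_apply]
  congr 2
  exact ZMod.natCast_zmod_val (n := N + 1) t

open Classical in
lemma cyc (d : ZMod n → ℤ) (h1 : ∀ t, d t ≤ 1) (h2 : ∀ t, -1 ≤ d t) (h0 : 0 ≤ ∑ t, d t) :
    ((univ.filter (Rec d)).card : ℤ) = ∑ t, d t := by
  have lb : ∀ s l, -(n : ℤ) ≤ B d s l := by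
    intro s l
    induction l using Nat.strong_induction_on generalizing s with
    | _ l ih =>
      by_cases h : l < n
      · have : ∑ _t ∈ range l, (-1 : ℤ) ≤ B d s l := sum_le_sum fun t _ => h2 _
        simp at this
        omega
      · obtain ⟨k, rfl⟩ := Nat.exists_eq_add_of_le (not_lt.1 h)
        have := ih k (by have := NeZero.pos n; omega) (s - n)
        rw [B_add, B_per]
        omega
  have ex : ∀ s, ∃ q : ℕ, G d s (q + 1) := fun s => ⟨n, fun l => by have := lb s l; omega⟩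
  have key : ∀ s v, G d s v ↔ (Nat.find (ex s) : ℤ) < v := by
    intro s v
    constructor
    · intro h
      have p := G_pos h
      have := Nat.find_min' (ex s) (m := (v - 1).toNat) (fun l => by have := h l; omega)
      omega
    · intro h l
      have := Nat.find_spec (ex s) l
      omega
  obtain ⟨q, hq⟩ : ∃ q : ZMod n → ℕ, ∀ s v, G d s v ↔ (q s : ℤ) < v := ⟨_, key⟩
  have e : ∀ s, (if Rec d s then (1 : ℤ) else 0) = q s - q (s - 1) + d s := by
    intro s
    have a := G_iff d s (q s + 1)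
    have b := G_iff d s (q s)
    simp only [hq] at a b
    have := h1 s
    simp only [Rec, hq]
    split_ifs <;> omega
  rw [card_filter]
  push_cast
  simp only [e, sum_add_distrib, sum_sub_distrib]
  have := Equiv.sum_comp (Equiv.subRight 1) (fun s => (q s : ℤ))
  simp only [Equiv.subRight_apply] at this
  rw [this]
  ring

def T (p : ZMod n) (A : Finset (ZMod n)) : Finset (ZMod n) :=
  if p + 1 ∈ A ∧ p ∉ A then A.map (Equiv.swap p (p + 1)).toEmbedding else A

lemma card_T (p : ZMod n) (A : Finset (ZMod n)) : (T p A).card = A.card := by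
  unfold T
  split_ifs <;> simp

lemma mem_T {p : ZMod n} (hp : p + 1 ≠ p) (A : Finset (ZMod n)) :
    (p ∈ T p A ↔ p ∈ A ∨ p + 1 ∈ A) ∧ (p + 1 ∈ T p A ↔ p ∈ A ∧ p + 1 ∈ A) ∧
      ∀ t, t ≠ p → t ≠ p + 1 → (t ∈ T p A ↔ t ∈ A) := by
  unfold T
  split_ifs with h
  · refine ⟨by simp [h], by simp [h], fun t a b => ?_⟩
    simp [Equiv.swap_apply_of_ne_of_ne a b]
  · exact ⟨by tauto, by tauto, fun _ _ _ => Iff.rfl⟩

def st (A S : Finset (ZMod n)) (t : ZMod n) : ℤ :=
  (if t ∈ S then 1 else 0) - if t ∈ A then 1 else 0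

open Classical in
noncomputable def D (A S : Finset (ZMod n)) : Finset (ZMod n) :=
  S.filter fun t => ¬ Rec (st A S) t

lemma mem_D {A S : Finset (ZMod n)} {t : ZMod n} : t ∈ D A S ↔ t ∈ S ∧ ¬ Rec (st A S) t := by
  simp [D]

def nx (S : Finset (ZMod n)) (p : ZMod n) : ZMod n := if p + 1 ∈ S then p else p + 1

lemma comm (hn : ∀ p : ZMod n, p + 1 ≠ p) (A S : Finset (ZMod n)) (p : ZMod n) :
    D (T (nx S p) A) (T p S) = T p (D A S) := by
  have hp := hn p
  obtain ⟨s1, s2, s3⟩ := mem_T hp S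
  obtain ⟨d1, d2, d3⟩ := mem_T hp (D A S)
  unfold nx
  split_ifs with h
  · obtain ⟨a1, a2, a3⟩ := mem_T hp A
    obtain ⟨r1, R, ⟨r2, r7⟩, r3, r4, r5, r6⟩ := rec_loc (d := st A S) (d' := st (T p A) (T p S)) hp
      (by simp only [st, a1, a2, s1, s2]; by_cases p ∈ A <;> by_cases p + 1 ∈ A <;>
        by_cases p ∈ S <;> simp [*])
      (fun t a b => by simp only [st, a3 t a b, s3 t a b])
      (by simp only [st, a1, a2, s1, s2]; by_cases p ∈ A <;> by_cases p + 1 ∈ A <;>
        by_cases p ∈ S <;> simp [*])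
    have z0 : ¬ R 0 := fun k => by simpa using r2 0 k
    have z1 : ¬ R (-1) := fun k => by simpa using r2 (-1) k
    ext t
    by_cases e1 : t = p
    · subst e1
      simp only [mem_D, d1, r3, r4, r5, st, a1, s1]
      by_cases t ∈ A <;> by_cases t + 1 ∈ A <;> by_cases t ∈ S <;> simp [*]
      exact mt r7
    by_cases e2 : t = p + 1
    · subst e2
      simp only [mem_D, d2, r3, r5, r6, st, a2, s2]
      by_cases p ∈ A <;> by_cases p + 1 ∈ A <;> by_cases p ∈ S <;> simp [*]
      exact mt r7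
    · simp only [mem_D, d3 t e1 e2, s3 t e1 e2, r1 t e1 e2]
  · have t1 : T p S = S := if_neg fun k => h k.1
    have t2 : T p (D A S) = D A S := if_neg fun k => h (mem_D.1 k.1).1
    rw [t1, t2]
    generalize p + 1 = b at h
    have hb := hn b
    obtain ⟨a1, a2, a3⟩ := mem_T hb A
    obtain ⟨r1, R, ⟨r2, r7⟩, r3, r4, r5, r6⟩ := rec_loc (d := st A S) (d' := st (T b A) S) hb
      (by simp only [st, a1, a2]; by_cases b ∈ A <;> by_cases b + 1 ∈ A <;>
        by_cases b + 1 ∈ S <;> simp [*])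
      (fun t a b => by simp only [st, a3 t a b])
      (by simp only [st, a1]; by_cases b ∈ A <;> by_cases b + 1 ∈ A <;>
        by_cases b + 1 ∈ S <;> simp [*])
    have z0 : ¬ R 0 := fun k => by simpa using r2 0 k
    have z1 : ¬ R (-1) := fun k => by simpa using r2 (-1) k
    ext t
    by_cases e1 : t = b
    · simp [e1, mem_D, h]
    by_cases e2 : t = b + 1
    · subst e2
      simp only [mem_D, r5, r6, st, a2]
      by_cases b ∈ A <;> by_cases b + 1 ∈ A <;> by_cases b + 1 ∈ S <;> simp [*]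
    · simp only [mem_D, r1 t e1 e2]

lemma sum_st (A S : Finset (ZMod n)) : ∑ t, st A S t = S.card - A.card := by
  simp [st, sum_sub_distrib]

lemma rec_mem {A S : Finset (ZMod n)} {t : ZMod n} (h : Rec (st A S) t) : t ∈ S := by
  have := G_pos h
  unfold st at this
  split_ifs at this <;> first | assumption | omega

open Classical in
lemma card_rec (A S : Finset (ZMod n)) (h : A.card ≤ S.card) :
    (univ.filter (Rec (st A S))).card + A.card = S.card := by
  have := cyc (st A S) (fun t => by unfold st; split_ifs <;> omega)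
    (fun t => by unfold st; split_ifs <;> omega) (by rw [sum_st]; omega)
  rw [sum_st] at this
  omega

lemma card_D (A S : Finset (ZMod n)) (h : A.card ≤ S.card) : (D A S).card = A.card := by
  classical
  have a := card_rec A S h
  have b := card_filter_add_card_filter_not (s := S) (Rec (st A S))
  have e : S.filter (Rec (st A S)) = univ.filter (Rec (st A S)) := by
    ext t
    simp only [mem_filter, mem_univ, true_and, and_iff_right_iff_imp]
    exact rec_mem
  have e2 : D A S = S.filter fun t => ¬ Rec (st A S) t := by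
    ext t
    simp [mem_D]
  rw [e] at b
  rw [e2]
  omega

lemma D_down {A S : Finset (ZMod n)} {u a : ZMod n} (h : a ≠ u) (ha : a ∈ D A (insert u S)) :
    a ∈ D A S := by
  rw [mem_D] at ha ⊢
  refine ⟨(mem_insert.1 ha.1).resolve_left h, fun k => ha.2 (rec_mono (fun t => ?_) k)⟩
  simp only [st, mem_insert]
  split_ifs <;> first | omega | tauto

lemma D_up {A A0 S : Finset (ZMod n)} {u : ZMod n} (hA : A ⊆ A0) (hc : A0.card < S.card)
    (hu : u ∉ S) (h : ∀ a : ZMod n, a.val < u.val → a ∈ D A0 S) {a : ZMod n} (ha : a.val < u.val)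
    (haD : a ∈ D A S) : a ∈ D A (insert u S) := by
  classical
  obtain ⟨z, hz⟩ := card_pos.1 (show 0 < (univ.filter (Rec (st A0 S))).card by
    have := card_rec A0 S hc.le
    omega)
  have hz : Rec (st A0 S) z := (mem_filter.1 hz).2
  have z1 : u.val < z.val := by
    rcases lt_trichotomy u.val z.val with k | k | k
    · exact k
    · exact absurd (ZMod.val_injective n k ▸ rec_mem hz) hu
    · exact absurd hz (mem_D.1 (h z k)).2
  have hz2 : Rec (st A S) z := rec_mono (fun t => by
    have := @hA t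
    simp only [st]
    split_ifs <;> first | omega | tauto) hz
  have zn := ZMod.val_lt z
  rw [mem_D] at haD ⊢
  refine ⟨mem_insert_of_mem haD.1, fun k => haD.2 ?_⟩
  rw [rec_iff] at k hz2 ⊢
  obtain ⟨l0, hl0⟩ : ∃ l0, l0 + 1 + z.val = a.val + n := ⟨a.val + n - z.val - 1, by omega⟩
  have e : ∀ l ≤ l0, B (st A S) a (l + 1) = B (st A (insert u S)) a (l + 1) := by
    intro l hl
    refine sum_congr rfl fun t ht => ?_
    have ht := mem_range.1 ht
    have : a - t ≠ u := by
      intro k
      have : ((u.val + t - a.val : ℕ) : ZMod n) = 0 := by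
        rw [Nat.cast_sub (by omega)]
        simp [← k]
      have := Nat.le_of_dvd (by omega) ((ZMod.natCast_eq_zero_iff _ _).1 this)
      omega
    simp [st, this]
  intro l
  by_cases hl : l ≤ l0
  · rw [e l hl]
    exact k l
  · obtain ⟨j, rfl⟩ : ∃ j, l = l0 + 1 + j := ⟨l - (l0 + 1), by omega⟩
    have : a - ((l0 + 1 : ℕ) : ZMod n) = z := by
      have := congrArg (Nat.cast : ℕ → ZMod n) hl0
      simp only [Nat.cast_add, ZMod.natCast_zmod_val, ZMod.natCast_self] at this ⊢
      linear_combination -this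
    rw [add_assoc (l0 + 1), B_add, this, e l0 le_rfl]
    exact add_pos (k l0) (hz2 j)

end Pool.Agent.H.MP_f07634_pr
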