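import Mathlib
import Pool.Agent.H.MP_f07634_pr.A

namespace Pool.Agent.H.MP_f07634_pr

open Finset

lemma closed {X P : Type*} [Fintype X] [Fintype P] (U : P → X → X) (δ : X → ℝ)
    (h : ∀ F : X → ℝ, ∑ x, δ x * ∑ p, F (U p x) = Fintype.card P * ∑ x, δ x * F x)
    {x z : X} (r : Relation.ReflTransGen (fun a b => ∃ p, U p a = b) x z) (hx : 0 < δ x) :
    0 < δ z := by
  classical
  let F : X → ℝ := fun x => if 0 < δ x then 1 else 0
  have F1 : ∀ x, F x ≤ 1 := fun x => by simp only [F]; split_ifs <;> norm_num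
  have F0 : ∀ x, 0 ≤ F x := fun x => by simp only [F]; split_ifs <;> norm_num
  have s : ∑ x, δ x * ∑ p, (F (U p x) - F x) = 0 := by
    simp only [sum_sub_distrib, mul_sub, h F, sum_const, card_univ, nsmul_eq_mul]
    rw [mul_sum, sub_eq_zero]
    exact sum_congr rfl fun x _ => mul_left_comm _ _ _
  have le : ∀ x ∈ (univ : Finset X), δ x * ∑ p, (F (U p x) - F x) ≤ 0 := by
    intro x _
    by_cases k : 0 < δ x
    · exact mul_nonpos_of_nonneg_of_nonpos k.le
        (sum_nonpos fun p _ => by simpa [F, k] using F1 (U p x))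
    · exact mul_nonpos_of_nonpos_of_nonneg (not_lt.1 k)
        (sum_nonneg fun p _ => by simpa [F, k] using F0 (U p x))
  induction r with
  | refl => exact hx
  | @tail b c _ k ih =>
    obtain ⟨p, rfl⟩ := k
    have a := (mul_eq_zero.1 ((sum_eq_zero_iff_of_nonpos le).1 s b (mem_univ _))).resolve_left ih.ne'
    have := (sum_eq_zero_iff_of_nonpos (fun p _ => by simpa [F, ih] using F1 (U p b))).1 a p
      (mem_univ _)
    by_contra k
    simp [F, ih, k] at this

lemma uniq {X P : Type*} [Fintype X] [Fintype P] (U : P → X → X) (δ : X → ℝ)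
    (h : ∀ F : X → ℝ, ∑ x, δ x * ∑ p, F (U p x) = Fintype.card P * ∑ x, δ x * F x)
    (h0 : ∑ x, δ x = 0) (z : X)
    (r : ∀ x, δ x ≠ 0 → Relation.ReflTransGen (fun a b => ∃ p, U p a = b) x z) (x : X) :
    δ x = 0 := by
  by_cases k : 0 < δ z
  · refine (sum_eq_zero_iff_of_nonneg fun y _ => ?_).1 h0 x (mem_univ _)
    by_contra hy
    have := closed U (fun x => -δ x) (fun F => by simp [h F]) (r y (fun e => hy e.ge))
      (by simpa using hy)
    linarith
  · refine (sum_eq_zero_iff_of_nonpos fun y _ => ?_).1 h0 x (mem_univ _)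
    by_contra hy
    exact k (closed U δ h (r y (fun e => hy e.le)) (not_le.1 hy))

variable {n : ℕ} [NeZero n]

def init (n : ℕ) [NeZero n] (k : ℕ) : Finset (ZMod n) := univ.filter fun t => t.val < k

lemma card_init {k : ℕ} (h : k ≤ n) : (init n k).card = k := by
  rw [← card_range k]
  refine card_nbij' ZMod.val (fun i => (i : ZMod n)) (fun t ht => by simpa [init] using ht)
    (fun i hi => ?_) (fun t _ => ZMod.natCast_zmod_val t) fun i hi => ?_
  · have : i < k := by simpa using hi
    simp [init, ZMod.val_natCast_of_lt (this.trans_le h), this]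
  · have : i < k := by simpa using hi
    exact ZMod.val_natCast_of_lt (this.trans_le h)

lemma val_succ {p : ZMod n} (h : p.val + 1 < n) : (p + 1).val = p.val + 1 := by
  rw [← ZMod.val_natCast_of_lt h]
  simp

lemma down (A : Finset (ZMod n)) (h : ∀ p, p.val + 1 < n → p + 1 ∈ A → p ∈ A) :
    A = init n A.card := by
  have k : ∀ d : ℕ, ∀ s t : ZMod n, s.val + d = t.val → t ∈ A → s ∈ A := by
    intro d
    induction d with
    | zero => intro s t e ht; rwa [ZMod.val_injective n e]
    | succ d ih =>
      intro s t e ht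
      have := ZMod.val_lt t
      exact h s (by omega) (ih (s + 1) t (by rw [val_succ (by omega)]; omega) ht)
  have c : A.card ≤ n := by simpa using card_le_univ A
  refine eq_of_subset_of_card_le (fun t ht => ?_) (card_init c).le
  have : init n (t.val + 1) ⊆ A := fun s hs =>
    k (t.val - s.val) s t (by have := (mem_filter.1 hs).2; omega) ht
  have := card_le_card this
  rw [card_init (ZMod.val_lt t)] at this
  exact mem_filter.2 ⟨mem_univ _, this⟩

lemma reach {ι : Type*} [Fintype ι] (w : ι → Finset (ZMod n)) :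
    Relation.ReflTransGen (fun a b => ∃ p, (fun c => T p (a c)) = b) w
      fun c => init n (w c).card := by
  induction hw : ∑ c, ∑ t ∈ w c, t.val using Nat.strong_induction_on generalizing w with
  | _ N ih =>
    by_cases h : ∀ c p, p.val + 1 < n → p + 1 ∈ w c → p ∈ w c
    · rw [← funext fun c => down (w c) (h c)]
    · push Not at h
      obtain ⟨c, p, hp, h1, h2⟩ := h
      have lt : ∀ A : Finset (ZMod n), p + 1 ∈ A ∧ p ∉ A →
          ∑ t ∈ T p A, t.val < ∑ t ∈ A, t.val := by
        intro A hA
        rw [T, if_pos hA, sum_map]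
        refine sum_lt_sum (fun t ht => ?_) ⟨p + 1, hA.1, by simp [val_succ hp]⟩
        by_cases e : t = p + 1
        · simp [e, val_succ hp]
        · simp [Equiv.swap_apply_of_ne_of_ne (fun k : t = p => hA.2 (k ▸ ht)) e]
      have := ih _ (hw ▸ sum_lt_sum (fun c _ => by
        by_cases k : p + 1 ∈ w c ∧ p ∉ w c
        · exact (lt _ k).le
        · simp [T, k]) ⟨c, mem_univ _, lt _ ⟨h1, h2⟩⟩) (fun c => T p (w c)) rfl
      simp only [card_T] at this
      exact .head ⟨p, rfl⟩ this

lemma bij (hn : ∀ p : ZMod n, p + 1 ≠ p) (j : ℕ) (f : Finset (ZMod n) → ZMod n → ℝ) :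
    ∑ S ∈ powersetCard j univ, ∑ p, f (T p S) (nx S p) =
      ∑ S ∈ powersetCard j univ, ∑ b, f S b := by
  let φ : Finset (ZMod n) × ZMod n → Finset (ZMod n) × ZMod n := fun x => (T x.2 x.1, nx x.1 x.2)
  have k : ∀ (S : Finset (ZMod n)) p, nx S p ∈ T p S ↔ p + 1 ∈ S := by
    intro S p
    obtain ⟨a, b, -⟩ := mem_T (hn p) S
    unfold nx
    split_ifs with h <;> simp [a, b, h]
  have inj : Function.Injective φ := by
    rintro ⟨S, p⟩ ⟨S', p'⟩ e
    obtain ⟨e1, e2⟩ : T p S = T p' S' ∧ nx S p = nx S' p' := Prod.ext_iff.1 e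
    have e3 : p + 1 ∈ S ↔ p' + 1 ∈ S' := by rw [← k, ← k, e1, e2]
    by_cases h : p + 1 ∈ S
    · have h' := e3.1 h
      obtain rfl : p = p' := by simpa [nx, h, h'] using e2
      obtain ⟨-, b, c⟩ := mem_T (hn p) S
      obtain ⟨-, b', c'⟩ := mem_T (hn p) S'
      congr 1
      ext t
      by_cases t1 : t = p
      · rw [e1, b'] at b
        simpa [t1, h, h'] using b.symm
      by_cases t2 : t = p + 1
      · simp [t2, h, h']
      · rw [← c t t1 t2, ← c' t t1 t2, e1]
    · have h' := mt e3.2 h
      obtain rfl : p = p' := by simpa [nx, h, h'] using e2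
      simpa [T, h, h'] using e1
  have im : (powersetCard j univ ×ˢ univ).image φ = powersetCard j univ ×ˢ univ := by
    refine eq_of_subset_of_card_le (fun y hy => ?_) (card_image_of_injective _ inj).ge
    obtain ⟨x, hx, rfl⟩ := mem_image.1 hy
    simpa [φ, card_T] using hx
  rw [← sum_product', ← sum_product' (f := f)]
  conv_rhs => rw [← im, sum_image inj.injOn]

section
variable {Ω : Type*} [Fintype Ω] (π : Ω → ℝ) (U : ZMod n → Ω → Ω) (L : Ω → ℕ → Finset (ZMod n))

noncomputable def out (m : ℕ) (ω : Ω) (S : Finset (ZMod n)) : Option (Fin m) → Finset (ZMod n) :=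
  fun c => c.elim S fun c => D (L ω (c + 1)) S

def wd (m j : ℕ) (ω : Ω) : Option (Fin m) → Finset (ZMod n) :=
  fun c => c.elim (L ω j) fun c => L ω (c + 1)

lemma star (hn : ∀ p : ZMod n, p + 1 ≠ p) (hL : ∀ p ω c, L (U p ω) c = T p (L ω c))
    (hc : ∀ ω c, c ≤ n → (L ω c).card = c)
    (hs : ∀ F : Ω → ℝ, ∑ ω, π ω * ∑ p, F (U p ω) = n * ∑ ω, π ω * F ω)
    {m j : ℕ} (hm : m ≤ j) (hj : j ≤ n) (F : (Option (Fin m) → Finset (ZMod n)) → ℝ) :
    ∑ ω, π ω * ∑ S ∈ powersetCard j univ, F (out L m ω S) =
      n.choose j * ∑ ω, π ω * F (wd L m j ω) := by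
  classical
  let δ : (Option (Fin m) → Finset (ZMod n)) → ℝ := fun x =>
    ∑ ω, π ω * ∑ S ∈ powersetCard j univ, (if out L m ω S = x then 1 else 0) -
      n.choose j * ∑ ω, π ω * if wd L m j ω = x then 1 else 0
  have pair : ∀ F : (Option (Fin m) → Finset (ZMod n)) → ℝ, ∑ x, δ x * F x =
      ∑ ω, π ω * ∑ S ∈ powersetCard j univ, F (out L m ω S) -
        n.choose j * ∑ ω, π ω * F (wd L m j ω) := by
    intro F
    simp only [δ, sub_mul, sum_sub_distrib, mul_assoc, ← mul_sum, sum_mul]
    congr 1
    · rw [sum_comm]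
      refine sum_congr rfl fun ω _ => ?_
      rw [← mul_sum, sum_comm]
      simp
    · congr 1
      rw [sum_comm]
      simp
  have z := uniq (fun p w c => T p (w c)) δ (fun F => by
    rw [pair, pair, ZMod.card, mul_sub, mul_left_comm, ← hs, ← hs]
    congr 1
    · refine sum_congr rfl fun ω _ => ?_
      rw [sum_comm (s := univ), ← bij hn j fun S b => F (out L m (U b ω) S)]
      congr 1
      refine sum_congr rfl fun S _ => sum_congr rfl fun p _ => ?_
      congr 1
      funext c
      cases c <;> simp [out, hL, comm hn]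
    · congr 1
      refine sum_congr rfl fun ω _ => ?_
      congr 1
      refine sum_congr rfl fun p _ => ?_
      congr 1
      funext c
      cases c <;> simp [wd, hL])
    (by simpa [← sum_mul, mul_comm] using pair fun _ => 1)
    (fun c => init n (c.elim j fun c => c + 1)) (fun x hx => by
      have e : ∀ c, (x c).card = c.elim j fun c => c + 1 := by
        by_contra k
        apply hx
        have a : ∀ ω, ∀ S ∈ powersetCard j univ, out L m ω S ≠ x := by
          rintro ω S hS rfl
          have hS := (mem_powersetCard.1 hS).2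
          refine k fun c => ?_
          rcases c with _ | c
          · exact hS
          · have := hc ω (c + 1) (by omega)
            exact (card_D _ _ (by omega)).trans this
        have b : ∀ ω, wd L m j ω ≠ x := by
          rintro ω rfl
          refine k fun c => ?_
          rcases c with _ | c
          exacts [hc ω j hj, hc ω (c + 1) (by omega)]
        simp only [δ, b, if_false, mul_zero, sum_const_zero, sub_zero]
        refine sum_eq_zero fun ω _ => ?_
        rw [sum_eq_zero fun S hS => if_neg (a ω S hS), mul_zero]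
      simpa only [e] using reach x)
  have := pair F
  simp only [z, zero_mul, sum_const_zero] at this
  linarith

open Classical in
theorem main (hn : ∀ p : ZMod n, p + 1 ≠ p) (hL : ∀ p ω c, L (U p ω) c = T p (L ω c))
    (hc : ∀ ω c, c ≤ n → (L ω c).card = c)
    (hmono : ∀ ω c c', c ≤ c' → L ω c ⊆ L ω c')
    (hs : ∀ F : Ω → ℝ, ∑ ω, π ω * ∑ p, F (U p ω) = n * ∑ ω, π ω * F ω)
    {m : ℕ} (u : ZMod n) (i : ZMod n → ℕ) (hi : ∀ a, a.val < u.val → i a < m) (j : ℕ)
    (hm : m < j) (hj : j ≤ n) :
    n * ∑ ω, π ω * (if (∀ a, a.val < u.val → ∀ c : Fin m, a ∈ L ω (c + 1) ↔ i a ≤ c) ∧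
      u ∉ L ω j then 1 else 0) = (n - j) * ∑ ω, π ω *
      if ∀ a, a.val < u.val → ∀ c : Fin m, a ∈ L ω (c + 1) ↔ i a ≤ c then 1 else 0 := by
  set E := ∑ ω, π ω *
    if ∀ a, a.val < u.val → ∀ c : Fin m, a ∈ L ω (c + 1) ↔ i a ≤ c then (1 : ℝ) else 0 with hE
  let Φ : Ω → Finset (ZMod n) → Prop := fun ω S =>
    ∀ a, a.val < u.val → ∀ c : Fin m, a ∈ D (L ω (c + 1)) S ↔ i a ≤ c
  let a : ℕ → ℝ := fun j => ∑ ω, π ω * ∑ S ∈ powersetCard j (univ.erase u),
    if Φ ω S then (1 : ℝ) else 0
  have ins : ∀ ω S, m < S.card → u ∉ S → (Φ ω (insert u S) ↔ Φ ω S) := by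
    intro ω S hS hu
    have mn : m ≤ n := by omega
    have key : (∀ a : ZMod n, a.val < u.val → a ∈ D (L ω m) S) → (Φ ω (insert u S) ↔ Φ ω S) := by
      intro h
      refine forall_congr' fun a => forall_congr' fun ha => forall_congr' fun c => ?_
      refine iff_congr ⟨D_down fun e => by simp [e] at ha, ?_⟩ Iff.rfl
      exact D_up (hmono ω _ m c.2) (by rwa [hc ω m mn]) hu h ha
    have top : ∀ S', Φ ω S' → ∀ a : ZMod n, a.val < u.val → a ∈ D (L ω m) S' := by
      intro S' h a ha
      have := hi a ha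
      have k := (h a ha ⟨m - 1, by omega⟩).2 (by simp only; omega)
      simp only at k
      rwa [Nat.sub_add_cancel (by omega)] at k
    exact ⟨fun h => (key fun a ha => D_down (fun e => by simp [e] at ha) (top _ h a ha)).1 h,
      fun h => (key (top _ h)).2 h⟩
  have ue : insert u (univ.erase u) = univ := insert_erase (mem_univ u)
  have r1 : ∀ j, m < j → j + 1 ≤ n → a (j + 1) + a j = n.choose (j + 1) * E := by
    intro j h1 h2
    have := star π U L hn hL hc hs (m := m) (j := j + 1) (by omega) h2
      fun w => if ∀ a, a.val < u.val → ∀ c : Fin m, a ∈ w (some c) ↔ i a ≤ c then 1 else 0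
    refine Eq.trans ?_ this
    simp only [a, ← sum_add_distrib, ← mul_add]
    refine sum_congr rfl fun ω _ => ?_
    congr 1
    conv_rhs => rw [← ue, powersetCard_succ_insert (notMem_erase u _)]
    rw [sum_union, sum_image]
    · congr 1
      refine sum_congr rfl fun S hS => ?_
      have := mem_powersetCard.1 hS
      exact if_congr (ins ω S (by omega) fun k => by simpa using this.1 k).symm rfl rfl
    · intro S hS S' hS' e
      have k1 : u ∉ S := fun k => by simpa using (mem_powersetCard.1 hS).1 k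
      have k2 : u ∉ S' := fun k => by simpa using (mem_powersetCard.1 hS').1 k
      rw [← erase_insert k1, ← erase_insert k2, e]
    · refine disjoint_left.2 fun S hS hS' => ?_
      obtain ⟨S', -, rfl⟩ := mem_image.1 hS'
      simpa using (mem_powersetCard.1 hS).1 (mem_insert_self _ _)
  obtain ⟨N, rfl⟩ := Nat.exists_eq_succ_of_ne_zero (NeZero.ne n)
  have r2 : ∀ t j, j + t = N + 1 → m < j → a j = N.choose j * E := by
    intro t
    induction t with
    | zero =>
      intro j h _
      obtain rfl : j = N + 1 := h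
      have : powersetCard (N + 1) (univ.erase u) = ∅ :=
        powersetCard_eq_empty.2 (by simp [card_erase_of_mem])
      simp [a, this]
    | succ t ih =>
      intro j h hm
      have := r1 j hm (by omega)
      rw [ih (j + 1) (by omega) (by omega), Nat.choose_succ_succ'] at this
      push_cast at this
      linarith
  have s := star π U L hn hL hc hs hm.le hj
    fun w => if (∀ a, a.val < u.val → ∀ c : Fin m, a ∈ w (some c) ↔ i a ≤ c) ∧ u ∉ w none
      then 1 else 0
  have e : a j = _ := Eq.trans (sum_congr rfl fun ω _ => by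
    congr 1
    have : powersetCard j (univ.erase u) = (powersetCard j univ).filter (u ∉ ·) := by
      ext S
      simp [mem_powersetCard, subset_erase, and_comm]
    rw [this, sum_filter]
    refine sum_congr rfl fun S _ => ?_
    by_cases k : u ∈ S <;> simp [k, out, Φ]) s
  rw [r2 (N + 1 - j) j (by omega) hm] at e
  have c0 : ((N + 1).choose j : ℝ) ≠ 0 := by exact_mod_cast (Nat.choose_pos hj).ne'
  have c1 : ((N.choose j * (N + 1) : ℕ) : ℝ) = ((N + 1).choose j * (N + 1 - j) : ℕ) := by
    rw [Nat.choose_mul_succ_eq]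
  rw [Nat.cast_mul, Nat.cast_mul, Nat.cast_sub hj] at c1
  apply mul_left_cancel₀ c0
  have e' : ∀ P : ℝ, (N.choose j : ℝ) * E = (N + 1).choose j * P →
      ((N + 1).choose j : ℝ) * ((N + 1 : ℕ) * P) = (N + 1).choose j * (((N + 1 : ℕ) - j) * E) :=
    fun P e => by linear_combination c1 * E - ((N + 1 : ℕ) : ℝ) * e
  refine e' _ (e.trans ?_)
  congr 1

end

def thr (lab : ZMod n → ℕ) (c : ℕ) : Finset (ZMod n) := univ.filter fun t => lab t < c

lemma thr_T {p : ZMod n} (hp : p + 1 ≠ p) (lab : ZMod n → ℕ) (c : ℕ) :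
    thr (if lab (p + 1) < lab p then lab ∘ Equiv.swap p (p + 1) else lab) c = T p (thr lab c) := by
  obtain ⟨a, b, d⟩ := mem_T hp (thr lab c)
  ext t
  by_cases e1 : t = p
  · rw [e1, a]
    split_ifs <;> simp [thr] <;> omega
  by_cases e2 : t = p + 1
  · rw [e2, b]
    split_ifs <;> simp [thr] <;> omega
  · rw [d t e1 e2]
    split_ifs <;> simp [thr, Equiv.swap_apply_of_ne_of_ne e1 e2]

lemma stat {G P : Type*} [Group G] [Fintype G] [Fintype P] (π : G → ℝ) (s : P → G)
    (hs : ∀ p, s p * s p = 1) (De As : G → P → Prop) [∀ g p, Decidable (De g p)]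
    [∀ g p, Decidable (As g p)] (h1 : ∀ g p, De (g * s p) p ↔ As g p)
    (h : ∀ g, π g * ((univ.filter (De g)).card : ℝ) = ∑ p ∈ univ.filter (As g), π (g * s p))
    (F : G → ℝ) : ∑ g, π g * ∑ p, F (if De g p then g * s p else g) =
      Fintype.card P * ∑ g, π g * F g := by
  have a : ∑ g, ∑ p, (if De g p then π g * F (g * s p) else 0) =
      ∑ g, ∑ p, if De g p then π g * F g else 0 := by
    rw [sum_comm]
    have : ∀ p, ∑ g, (if De g p then π g * F (g * s p) else 0) =
        ∑ g, if As g p then π (g * s p) * F g else 0 := fun p => by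
      rw [← Equiv.sum_comp (Equiv.mulRight (s p))]
      simp [h1, mul_assoc, hs]
    simp only [this]
    rw [sum_comm]
    refine sum_congr rfl fun g _ => ?_
    rw [← sum_filter, ← sum_filter, ← sum_mul, ← h]
    simp only [sum_const, nsmul_eq_mul]
    ring
  have b : ∀ g p, π g * F (if De g p then g * s p else g) = π g * F g +
      (if De g p then π g * F (g * s p) else 0) - if De g p then π g * F g else 0 := by
    intro g p
    split_ifs <;> ring
  simp only [mul_sum, b, sum_sub_distrib, sum_add_distrib, a]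
  simp

end Pool.Agent.H.MP_f07634_pr
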